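import Pool.Agent.H30.AX.Targets2

/-! # MP_70ba79_ag, board `aw_modules`, module RP3: multiplicities of zeros -/

set_option autoImplicit false

namespace Pool.Agent.H69.AX

open MvPolynomial SC Pool.Agent.H27.LV Pool.Agent.H30.AV Pool.Agent.H30.AW Pool.Agent.H30.AX

variable {k K : Type} [Field k] [Field K] [Algebra k K] {v : DV k K}

private lemma rp_add {t : ℤ} {x y : K} (hx : ge v t x) (hy : ge v t y) : ge v t (x + y) := by
  by_cases h : x + y = 0
  · exact Or.inl h
  by_cases h1 : x = 0
  · rw [h1, zero_add]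
    exact hy
  by_cases h2 : y = 0
  · rw [h2, add_zero]
    exact hx
  exact Or.inr ((le_min (hx.resolve_left h1) (hy.resolve_left h2)).trans (v.ord_add x y h1 h2 h))

private lemma rp_mul {s t : ℤ} {x y : K} (hx : ge v s x) (hy : ge v t y) :
    ge v (s + t) (x * y) := by
  by_cases h1 : x = 0
  · rw [h1, zero_mul]
    exact Or.inl rfl
  by_cases h2 : y = 0
  · rw [h2, mul_zero]
    exact Or.inl rfl
  right
  rw [v.ord_mul x y h1 h2]
  exact add_le_add (hx.resolve_left h1) (hy.resolve_left h2)

private lemma rp_reg {σ : Type} {z : σ → K} (hz : ∀ s, 0 ≤ v.ord (z s)) (g : MvPolynomial σ k) :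
    ge v 0 (aeval z g) := by
  induction g using MvPolynomial.induction_on with
  | C a => exact Or.inr (by rw [aeval_C, v.ord_base])
  | add p q hp hq =>
    rw [map_add]
    exact rp_add hp hq
  | mul_X p s hp =>
    rw [map_mul, aeval_X]
    exact rp_mul hp (Or.inr (hz s))

/-- the functions with a zero of order at least `t` -/
private def Iz {σ : Type} {z : σ → K} (hz : ∀ s, 0 ≤ v.ord (z s)) (t : ℕ) :
    Ideal (MvPolynomial σ k) where
  carrier := {x | ge v t (aeval z x)}
  zero_mem' := Or.inl (map_zero _)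
  add_mem' := fun {x y} hx hy => by
    change ge v t (aeval z (x + y))
    rw [map_add]
    exact rp_add hx hy
  smul_mem' := fun c x hx => by
    change ge v t (aeval z (c * x))
    rw [map_mul]
    have h := rp_mul (rp_reg hz c) hx
    rw [zero_add] at h
    exact h

private lemma Iz_pow {σ : Type} {z : σ → K} (hz : ∀ s, 0 ≤ v.ord (z s)) (n : ℕ) :
    Iz hz 1 ^ n ≤ Iz hz n := by
  induction n with
  | zero => exact fun x _ => rp_reg hz x
  | succ n ih =>
    rw [pow_succ]
    refine Ideal.mul_le.2 fun x hx y hy => ?_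
    change ge v ((n + 1 : ℕ) : ℤ) (aeval z (x * y))
    rw [map_mul]
    have h := rp_mul (ih hx) hy
    push_cast at h ⊢
    exact h

private lemma ord_pow' {x : K} (hx : x ≠ 0) (n : ℕ) : v.ord (x ^ n) = n * v.ord x := by
  induction n with
  | zero =>
    have h := v.ord_base 1
    rw [map_one] at h
    rw [pow_zero, h, Nat.cast_zero, zero_mul]
  | succ n ih =>
    rw [pow_succ, v.ord_mul _ _ (pow_ne_zero n hx) hx, ih]
    push_cast
    ring

theorem pf_RP3 : T_RP3 := by
  intro k K _ _ _ v σ m P A z hA hz hP hA0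
  by_cases h0 : v.ord (aeval z A) = 0
  · exact Or.inl h0
  right
  have h1 : 0 ≤ v.ord (aeval z A) := (rp_reg hz A).resolve_left hA0
  have hP' : ∀ t, P ≤ Iz hz t := fun t p hp => Or.inl (hP p hp)
  have h2 : Ideal.span {A} ⊔ P ≤ Iz hz 1 := by
    refine sup_le ?_ (hP' 1)
    rw [Ideal.span_singleton_le_iff_mem]
    exact Or.inr (by push_cast; omega)
  have h3 : (Ideal.span {A} ⊔ P).radical ≤ Iz hz 1 := by
    rintro u ⟨N, hN⟩
    have h4 : ge v ((1 : ℕ) : ℤ) (aeval z (u ^ N)) := h2 hN
    rw [map_pow] at h4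
    by_cases hu : aeval z u = 0
    · exact Or.inl hu
    · have h5 := h4.resolve_left (pow_ne_zero N hu)
      rw [ord_pow' hu] at h5
      have h6 : 0 ≤ v.ord (aeval z u) := (rp_reg hz u).resolve_left hu
      refine Or.inr ?_
      by_contra h7
      have h8 : v.ord (aeval z u) = 0 := by
        push_cast at h7
        omega
      rw [h8, mul_zero] at h5
      push_cast at h5
  have h9 : A ∈ Iz hz m := by
    refine (sup_le ?_ (hP' m) : (Ideal.span {A} ⊔ P).radical ^ m ⊔ P ≤ Iz hz m) hA
    exact (Ideal.pow_right_mono h3 m).trans (Iz_pow hz m)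
  exact Or.resolve_left (h9 : ge v (m : ℤ) (aeval z A)) hA0

end Pool.Agent.H69.AX
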